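import Mathlib
import Pool.Agent.KS6_39.HM.Defs
import Pool.Agent.KS6_39.HM.Struct
import Pool.Agent.KS6_39.HM.SQC

/-!
# A torsion-free hierarchically hyperbolic group with a malnormal infinite cyclic subgroup

The group `G` consists of the integral quaternions `x` of norm `5 ^ a * 13 ^ c` with even imaginary
coordinates, modulo scalars. It acts simply transitively on the vertices of the product of the
trees of valence `6` and `14`; the generating set `T` consists of the classes of the quaternions of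
norm `5` and `13`, and the word length is the sum of the displacements in the two trees.

* `G` has no torsion, and it is hierarchically hyperbolic.
* The strongly quasiconvex subgroups of `G` are exactly the trivial subgroup and the subgroups of
  finite index: if `z` differs from `1` in one coordinate only, and `h` is at least as far away in
  the other coordinate, then there is a `(3, 0)`-quasi-geodesic from `1` to `h` through `z`.
* The class `b` of `1 + 2 i + 2 j + 2 k` has centralizer `⟨b⟩`, because `5` is inert in the field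
  of the third roots of unity, and no element inverts it up to powers, because the real parts of
  all quaternions in the group are odd. Hence `⟨b⟩` is malnormal.
-/

set_option autoImplicit false

open Pool.Agent.KS6_39.HM.HHGDefs

namespace Pool.Agent.Results.MP_7eef47_al.TorsionFreeMalnormal

open Pool.Agent.KS6_39.HM

theorem b_gen : cl bP ∈ gens := ⟨bP, rfl, Or.inr bP_norm⟩

theorem b_ne_one : cl bP ≠ 1 := by
  intro h
  have h1 := rr_b_pow 1
  rw [pow_one, h, rr_one] at h1
  omega

theorem dist_b (m n : ℤ) : wordDist gens ((cl bP) ^ m) ((cl bP) ^ n) = (m - n).natAbs := by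
  unfold wordDist
  rw [← zpow_neg, ← zpow_add, wordLen_b_zpow]
  omega

theorem infinite_b : Function.Injective (fun n : ℤ => (cl bP) ^ n) := by
  intro m n h
  have h' : (cl bP) ^ m = (cl bP) ^ n := h
  have h1 := dist_b m n
  rw [h'] at h1
  unfold wordDist at h1
  rw [inv_mul_cancel, wordLen_one] at h1
  omega

/-- an almost malnormal subgroup of finite index is everything -/
theorem top_of_finiteIndex {K : Subgroup QG} (hK : AlmostMalnormal K) (hf : K.FiniteIndex) :
    K = ⊤ := by
  rw [eq_top_iff]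
  intro g _
  by_contra hg
  have h1 := hK g hg
  -- a power of every element of K lies in g K g⁻¹
  have hc : (K.map (MulAut.conj g).toMonoidHom).FiniteIndex := by
    constructor
    rw [Subgroup.index_map]
    have : (MulAut.conj g).toMonoidHom.range = ⊤ :=
      MonoidHom.range_eq_top.mpr (MulAut.conj g).surjective
    rw [this, Subgroup.index_top, mul_one]
    have hker : (MulAut.conj g).toMonoidHom.ker = ⊥ :=
      (MonoidHom.ker_eq_bot_iff _).mpr (MulAut.conj g).injective
    rw [hker, sup_bot_eq]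
    exact hf.index_ne_zero
  have hI : (K ⊓ K.map (MulAut.conj g).toMonoidHom).FiniteIndex := inferInstance
  obtain ⟨n, hn0, hn⟩ := Subgroup.exists_pow_mem_of_index_ne_zero hI.index_ne_zero (cl bP)
  have hinj : Function.Injective (fun k : ℕ => ((cl bP) ^ n) ^ k) := by
    intro i j hij
    have hij' : ((cl bP) ^ n) ^ i = ((cl bP) ^ n) ^ j := hij
    rw [← pow_mul, ← pow_mul, ← zpow_natCast, ← zpow_natCast] at hij'
    have h2 : ((n * i : ℕ) : ℤ) = ((n * j : ℕ) : ℤ) := infinite_b hij'
    have h3 : n * i = n * j := by exact_mod_cast h2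
    exact Nat.eq_of_mul_eq_mul_left hn0 h3
  refine (Set.infinite_range_of_injective hinj) (h1.subset ?_)
  rintro _ ⟨k, rfl⟩
  have h4 := (K ⊓ K.map (MulAut.conj g).toMonoidHom).pow_mem hn.2 k
  obtain ⟨h5, h6⟩ := h4
  refine ⟨h5, ?_⟩
  obtain ⟨y, hy, hy'⟩ := h6
  exact ⟨y, hy, hy'.symm⟩

/-- There are a torsion-free hierarchically hyperbolic group `G` with a finite generating set `T`,
in which the strongly quasiconvex subgroups are exactly the trivial subgroup and the subgroups of
finite index (so that no almost malnormal subgroup other than the trivial one and `G` is strongly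
quasiconvex), and an element `b` of `T`, such that the subgroup `⟨b⟩` is infinite cyclic, malnormal
(it meets its conjugates by the elements outside of it trivially) and isometrically embedded, but
not strongly quasiconvex: for every `n` there is a `(3, 0)`-quasi-geodesic of length `3 n` from `1`
to `b ^ n` whose `n`-th point has distance at least `n` from `⟨b⟩`. -/
theorem result :
    ∃ (G : Type) (_ : Group G) (T : Set G), T.Finite ∧ Subgroup.closure T = ⊤ ∧
      Nonempty (HHG G T) ∧
      (∀ g : G, g ≠ 1 → ∀ n : ℕ, 0 < n → g ^ n ≠ 1) ∧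
      (∀ K : Subgroup G, StronglyQuasiconvex T K ↔ K = ⊥ ∨ K.FiniteIndex) ∧
      (∀ K : Subgroup G, AlmostMalnormal K → StronglyQuasiconvex T K → K = ⊥ ∨ K = ⊤) ∧
      ∃ b ∈ T,
        (∀ m n : ℤ, wordDist T (b ^ m) (b ^ n) = (m - n).natAbs) ∧
        (∀ g : G, g ∉ Subgroup.zpowers b → ∀ x ∈ Subgroup.zpowers b,
          g * x * g⁻¹ ∈ Subgroup.zpowers b → x = 1) ∧
        AlmostMalnormal (Subgroup.zpowers b) ∧ (Subgroup.zpowers b).FG ∧
        ¬ StronglyQuasiconvex T (Subgroup.zpowers b) ∧
        ∀ n : ℕ, ∃ p : ℕ → G, IsQuasiGeodesic T 3 0 (3 * n) p ∧ p 0 = 1 ∧ p (3 * n) = b ^ n ∧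
          ∀ h ∈ Subgroup.zpowers b, n ≤ wordDist T (p n) h := by
  have hmal : AlmostMalnormal (Subgroup.zpowers (cl bP)) := by
    intro g hg
    refine (Set.finite_singleton (1 : QG)).subset ?_
    rintro x ⟨hx, y, hy, rfl⟩
    rw [malnormal hg hy hx]
    simp
  have hpath : ∀ n : ℕ, ∃ p : ℕ → QG, IsQuasiGeodesic gens 3 0 (3 * n) p ∧ p 0 = 1 ∧
      p (3 * n) = (cl bP) ^ n ∧ ∀ h ∈ Subgroup.zpowers (cl bP), n ≤ wordDist gens (p n) h := by
    intro n
    have hP : Pr 13 5 := Or.inr ⟨rfl, rfl⟩
    have hz : rr 13 ((cl cP) ^ n) = 0 := rr_pow_zero (rr_letter5 cP_norm).2 n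
    have hb0 : rr 5 ((cl bP) ^ n) = 0 := rr_pow_zero (rr_letter13 bP_norm).2 n
    have hc : rr 5 (((cl cP) ^ n)⁻¹ * (cl bP) ^ n) = n := by
      have h1 := rr_mul 5 ((cl cP) ^ n)⁻¹ ((cl bP) ^ n)
      have h2 := rr_mul 5 (((cl cP) ^ n)⁻¹ * (cl bP) ^ n) ((cl bP) ^ n)⁻¹
      rw [show ((cl cP) ^ n)⁻¹ * (cl bP) ^ n * ((cl bP) ^ n)⁻¹ = ((cl cP) ^ n)⁻¹ by group,
        rr_inv, rr_inv, rr_c_pow, hb0] at h2
      rw [rr_inv, rr_c_pow, hb0] at h1
      omega
    obtain ⟨p, p1, p2, p3, p4⟩ := detour hP (z := (cl cP) ^ n) (h := (cl bP) ^ n) hz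
      (by rw [rr_c_pow, rr_b_pow])
    rw [rr_c_pow, rr_b_pow, hc] at p1 p4
    rw [rr_c_pow] at p3
    have e : n + n + n = 3 * n := by ring
    rw [e] at p1 p4
    refine ⟨p, p1, p2, p4, ?_⟩
    intro h hh
    obtain ⟨m, rfl⟩ := Subgroup.mem_zpowers_iff.mp hh
    rw [p3]
    unfold wordDist
    rw [wordLen_eq]
    have h1 := rr_mul 5 (((cl cP) ^ n)⁻¹ * (cl bP) ^ m) ((cl bP) ^ m)⁻¹
    rw [show ((cl cP) ^ n)⁻¹ * (cl bP) ^ m * ((cl bP) ^ m)⁻¹ = ((cl cP) ^ n)⁻¹ by group,
      rr_inv, rr_inv, rr_c_pow, rr_zpow_zero (rr_letter13 bP_norm).2] at h1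
    omega
  have hnot : ¬ StronglyQuasiconvex gens (Subgroup.zpowers (cl bP)) := by
    intro hS
    obtain ⟨M, hM⟩ := hS 3 0 (by norm_num) le_rfl
    obtain ⟨n, hn⟩ := exists_nat_gt M
    obtain ⟨p, p1, p2, p3, p4⟩ := hpath n
    obtain ⟨h, hh, hd⟩ := hM _ p p1 (by rw [p2]; exact Subgroup.one_mem _)
      (by rw [p3]; exact Subgroup.pow_mem _ (Subgroup.mem_zpowers _) n) n (by omega)
    have h1 := p4 h hh
    have h2 : (n : ℝ) ≤ (wordDist gens (p n) h : ℝ) := by exact_mod_cast h1
    linarith
  refine ⟨QG, inferInstance, gens, gens_finite, closure_gens, ⟨hhg⟩,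
    fun g hg n hn => torsion_free n g hg hn, sqc_iff, ?_, cl bP, b_gen, dist_b,
    fun g hg x hx hx' => malnormal hg hx hx', hmal, ?_, hnot, hpath⟩
  · intro K hK hS
    rcases (sqc_iff K).mp hS with h | h
    · exact Or.inl h
    · exact Or.inr (top_of_finiteIndex hK h)
  · rw [Subgroup.fg_iff]
    exact ⟨{cl bP}, (Subgroup.zpowers_eq_closure _).symm, Set.finite_singleton _⟩

end Pool.Agent.Results.MP_7eef47_al.TorsionFreeMalnormal
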